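import Pool.Agent.H590.NL.Stm

/-!
# VP in all dimensions: lower bound of the volume of the polar, by the map `∇Φ`

Adapted from the planar file `Pool/Agent/H876/PL/VP.lean`.
-/

set_option autoImplicit false

noncomputable section

open MeasureTheory Filter Topology Set
open scoped BigOperators ENNReal Pointwise

namespace H661NLVP

open H590NL

/-- `ψ(t) = |t|^(p-2) t` -/
def ps (p t : ℝ) : ℝ := |t| ^ (p - 2) * t

lemma ps_neg (p t : ℝ) : ps p (-t) = - ps p t := by simp [ps]

lemma ps_strictMono {p : ℝ} (hp : 1 < p) : StrictMono (ps p) := by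
  apply strictMono_of_odd_strictMonoOn_nonneg (ps_neg p)
  intro a ha b hb hab
  have h : ∀ t : ℝ, 0 ≤ t → ps p t = t ^ (p - 1) := by
    intro t ht
    rcases ht.eq_or_lt with rfl | ht
    · rw [Real.zero_rpow (by linarith)]; simp [ps]
    · rw [ps, abs_of_pos ht, ← Real.rpow_add_one ht.ne']; congr 1; ring
  rw [h a ha, h b hb]
  exact Real.rpow_lt_rpow ha hab (by linarith)

lemma ps_hasDerivAt {p t : ℝ} (ht : t ≠ 0) :
    HasDerivAt (ps p) ((p - 1) * |t| ^ (p - 2)) t := by
  have h1 : HasDerivAt (fun y : ℝ => |y| ^ (p - 2)) _ t :=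
    (hasDerivAt_abs ht).rpow_const (Or.inl (abs_pos.2 ht).ne')
  have h2 : HasDerivAt (fun y : ℝ => |y| ^ (p - 2) * y) _ t := h1.mul (hasDerivAt_id' t)
  refine HasDerivAt.congr_deriv h2 ?_
  rw [mul_one]
  have h3 : |t| ^ (p - 2) = |t| ^ (p - 2 - 1) * |t| := by
    rw [← Real.rpow_add_one (abs_pos.2 ht).ne']; congr 1; ring
  have h4 : (SignType.sign t : ℝ) * t = |t| := sign_mul_self t
  have h5 : (SignType.sign t : ℝ) * (p - 2) * |t| ^ (p - 2 - 1) * t =
      (p - 2) * |t| ^ (p - 2 - 1) * ((SignType.sign t : ℝ) * t) := by ring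
  rw [h5, h4, h3]
  ring

variable {n : ℕ}

/-- the linear form -/
def ipL (w : V n) : V n →L[ℝ] ℝ :=
  ∑ i, w i • (ContinuousLinearMap.proj i : (Fin n → ℝ) →L[ℝ] ℝ)

lemma ipL_apply (w x : V n) : ipL w x = ip w x := by
  simp [ipL, ip]

lemma ip_sub (w x y : V n) : ip w (x - y) = ip w x - ip w y := by
  rw [← ipL_apply, map_sub, ipL_apply, ipL_apply]

lemma ip_smul (c : ℝ) (w x : V n) : ip w (c • x) = c * ip w x := by
  rw [← ipL_apply, map_smul, ipL_apply, smul_eq_mul]

lemma ip_comm (w x : V n) : ip w x = ip x w := by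
  unfold ip
  exact Finset.sum_congr rfl fun i _ => mul_comm _ _

variable {κ : Type} [Fintype κ]

/-- the gradient of `Φ` -/
def G (p : ℝ) (v : κ → V n) (x : V n) : V n := ∑ k, (p * ps p (ip (v k) x)) • v k

/-- its derivative -/
def G' (p : ℝ) (v : κ → V n) (x : V n) : V n →L[ℝ] V n :=
  ∑ k, (p * ((p - 1) * |ip (v k) x| ^ (p - 2))) • (ipL (v k)).smulRight (v k)

lemma G_hasFDerivAt (p : ℝ) (v : κ → V n) (x : V n) (hx : ∀ k, v k ≠ 0 → ip (v k) x ≠ 0) :
    HasFDerivAt (G p v) (G' p v x) x := by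
  unfold G G'
  apply HasFDerivAt.fun_sum
  intro k _
  by_cases hk : v k = 0
  · rw [hk]
    simp only [smul_zero, ContinuousLinearMap.smulRight_zero]
    exact hasFDerivAt_const _ _
  · have h1 := ps_hasDerivAt (p := p) (hx k hk)
    rw [← ipL_apply] at h1
    have h2 := (h1.const_mul p).comp_hasFDerivAt x (ipL (v k)).hasFDerivAt
    have h3 := h2.smul_const (v k)
    have e1 : (fun y => ((fun y => p * ps p y) ∘ (ipL (v k))) y • v k) =
        fun y => (p * ps p (ip (v k) y)) • v k := by
      funext y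
      simp only [Function.comp, ipL_apply]
    rw [e1] at h3
    refine h3.congr_fderiv ?_
    rw [ipL_apply]
    apply ContinuousLinearMap.ext
    intro y
    simp only [ContinuousLinearMap.smulRight_apply, _root_.smul_apply, smul_smul, smul_eq_mul]

lemma det_G' (hCB : S_CB) (p : ℝ) (v : κ → V n) (x : V n) :
    (G' p v x).det = (p - 1) ^ n * DD p v one x := by
  set a : κ → ℝ := fun k => p * one k * |ip (v k) x| ^ (p - 2) with ha
  have hG : ∀ y, G' p v x y = ∑ k, ((p - 1) * (a k * ip (v k) y)) • v k := by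
    intro y
    rw [G', _root_.sum_apply]
    refine Finset.sum_congr rfl fun k _ => ?_
    simp only [_root_.smul_apply, ContinuousLinearMap.smulRight_apply, ipL_apply, ha,
      one, smul_smul]
    congr 1
    ring
  have hM : LinearMap.toMatrix' ((G' p v x : V n →L[ℝ] V n) : V n →ₗ[ℝ] V n) =
      (p - 1) • (Matrix.of fun i j => ∑ k, a k * (v k i * v k j) :
        Matrix (Fin n) (Fin n) ℝ) := by
    ext i j
    rw [LinearMap.toMatrix'_apply]
    have e0 : ((G' p v x : V n →L[ℝ] V n) : V n →ₗ[ℝ] V n) (Pi.single j 1) =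
        ∑ k, ((p - 1) * (a k * ip (v k) (Pi.single j 1))) • v k :=
      hG _
    have e1 : ∀ k, ip (v k) (Pi.single j 1) = v k j := by
      intro k
      simp [ip, Pi.single_apply]
    rw [Matrix.smul_apply, Matrix.of_apply, smul_eq_mul, Finset.mul_sum, e0, Finset.sum_apply]
    refine Finset.sum_congr rfl fun k _ => ?_
    rw [e1, Pi.smul_apply, smul_eq_mul]
    ring
  have hdet : (G' p v x).det =
      (LinearMap.toMatrix' ((G' p v x : V n →L[ℝ] V n) : V n →ₗ[ℝ] V n)).det := by
    rw [LinearMap.det_toMatrix']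
  rw [hdet, hM, Matrix.det_smul, Fintype.card_fin, hCB n κ v a]
  rfl

/-! ### Hölder's inequality and injectivity -/

lemma ip_G (p : ℝ) (v : κ → V n) (x z : V n) :
    ip z (G p v x) = ∑ k, p * (ip (v k) z * ps p (ip (v k) x)) := by
  rw [← ipL_apply, G, map_sum]
  refine Finset.sum_congr rfl fun k _ => ?_
  rw [map_smul, ipL_apply, smul_eq_mul, ip_comm z (v k)]
  ring

lemma Ph_nonneg (p : ℝ) (v : κ → V n) (x : V n) : 0 ≤ Ph p v one x := by
  unfold Ph one
  positivity

lemma ip_G_le {p q : ℝ} (hp : 1 < p) (hq : q = p / (p - 1)) (v : κ → V n) (x z : V n)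
    (hz : ∑ k, |ip (v k) z| ^ p ≤ 1) : ip z (G p v x) ≤ p * Ph p v one x ^ (1 / q) := by
  have hpq : p.HolderConjugate q := by rw [hq]; exact Real.HolderConjugate.conjExponent hp
  rw [ip_G, ← Finset.mul_sum]
  refine mul_le_mul_of_nonneg_left ?_ (by linarith)
  refine (Real.inner_le_Lp_mul_Lq Finset.univ (fun k => ip (v k) z)
    (fun k => ps p (ip (v k) x)) hpq).trans ?_
  have h1 : ∀ t : ℝ, |ps p t| ^ q = |t| ^ p := by
    intro t
    have hq0 : q ≠ 0 := hpq.symm.pos.ne'
    by_cases ht : t = 0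
    · subst ht
      simp only [ps, mul_zero, abs_zero]
      rw [Real.zero_rpow hq0, Real.zero_rpow (by linarith)]
    · have ht' : 0 < |t| := abs_pos.2 ht
      have h2 : |ps p t| = |t| ^ (p - 1) := by
        rw [ps, abs_mul, abs_of_pos (Real.rpow_pos_of_pos ht' _), ← Real.rpow_add_one ht'.ne']
        congr 1; ring
      rw [h2, ← Real.rpow_mul ht'.le]
      congr 1
      rw [hq]
      have : p - 1 ≠ 0 := by linarith
      field_simp
  have h3 : ∑ k, |ps p (ip (v k) x)| ^ q = Ph p v one x := by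
    unfold Ph one
    refine Finset.sum_congr rfl fun k _ => ?_
    rw [h1, one_mul]
  rw [h3]
  have h4 : (∑ k, |ip (v k) z| ^ p) ^ (1 / p) ≤ 1 := by
    apply Real.rpow_le_one (by positivity) hz
    have : 0 < p := by linarith
    positivity
  have h5 : 0 ≤ Ph p v one x ^ (1 / q) := Real.rpow_nonneg (Ph_nonneg p v x) _
  calc _ ≤ 1 * Ph p v one x ^ (1 / q) := mul_le_mul_of_nonneg_right h4 h5
    _ = _ := one_mul _

lemma eq_of_ip (hLA : S_LA) (v : κ → V n) (hv : Spans v) (x y : V n)
    (h : ∀ k, ip (v k) x = ip (v k) y) : x = y := by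
  have h1 := (hLA n κ v).1.1 hv (x - y) (fun k => by rw [ip_sub, h k, sub_self])
  exact sub_eq_zero.1 h1

lemma G_injective (hLA : S_LA) {p : ℝ} (hp : 1 < p) (v : κ → V n) (hv : Spans v) :
    Function.Injective (G p v) := by
  intro x y hxy
  apply eq_of_ip hLA v hv
  have hm := ps_strictMono hp
  have h1 : ∑ k, (ip (v k) x - ip (v k) y) * (ps p (ip (v k) x) - ps p (ip (v k) y)) = 0 := by
    have a1 := ip_G p v x x
    have a2 := ip_G p v x y
    have a3 := ip_G p v y x
    have a4 := ip_G p v y y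
    rw [← Finset.mul_sum] at a1 a2 a3 a4
    rw [hxy] at a1 a2
    have hp0 : p ≠ 0 := by linarith
    have b1 : ∑ k, ip (v k) x * ps p (ip (v k) x) = ∑ k, ip (v k) x * ps p (ip (v k) y) := by
      apply mul_left_cancel₀ hp0
      rw [← a1, ← a3]
    have b2 : ∑ k, ip (v k) y * ps p (ip (v k) x) = ∑ k, ip (v k) y * ps p (ip (v k) y) := by
      apply mul_left_cancel₀ hp0
      rw [← a2, ← a4]
    have b3 : ∀ k, (ip (v k) x - ip (v k) y) * (ps p (ip (v k) x) - ps p (ip (v k) y)) =
        ip (v k) x * ps p (ip (v k) x) - ip (v k) x * ps p (ip (v k) y)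
          - (ip (v k) y * ps p (ip (v k) x) - ip (v k) y * ps p (ip (v k) y)) := by
      intro k; ring
    rw [Finset.sum_congr rfl fun k _ => b3 k]
    simp only [Finset.sum_sub_distrib]
    rw [b1, b2]
    ring
  have h2 : ∀ k ∈ Finset.univ,
      0 ≤ (ip (v k) x - ip (v k) y) * (ps p (ip (v k) x) - ps p (ip (v k) y)) := by
    intro k _
    rcases le_total (ip (v k) x) (ip (v k) y) with h | h
    · exact mul_nonneg_of_nonpos_of_nonpos (by linarith) (by linarith [hm.monotone h])
    · exact mul_nonneg (by linarith) (by linarith [hm.monotone h])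
  intro k
  have h3 := (Finset.sum_eq_zero_iff_of_nonneg h2).1 h1 k (Finset.mem_univ k)
  rcases mul_eq_zero.1 h3 with h | h
  · linarith
  · exact hm.injective (by linarith)

/-! ### Measurability and null sets -/

lemma measurable_ip (w : V n) : Measurable (ip w) := by
  unfold ip
  fun_prop

lemma measurable_Ph (p : ℝ) (v : κ → V n) : Measurable (Ph p v one) := by
  unfold Ph
  apply Finset.measurable_fun_sum
  intro k _
  have := measurable_ip (v k)
  fun_prop

lemma measurable_DD (p : ℝ) (v : κ → V n) : Measurable (DD p v one) := by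
  unfold DD
  apply Measurable.const_mul
  apply Finset.measurable_fun_sum
  intro f _
  apply Measurable.const_mul
  apply Finset.measurable_fun_prod
  intro i _
  have h1 := measurable_ip (v (f i))
  fun_prop

lemma DD_nonneg {p : ℝ} (hp : 0 ≤ p) (v : κ → V n) (x : V n) : 0 ≤ DD p v one x := by
  unfold DD one
  refine mul_nonneg (by positivity) (Finset.sum_nonneg fun f _ => mul_nonneg (sq_nonneg _)
    (Finset.prod_nonneg fun i _ => ?_))
  positivity

/-- the points where all relevant forms are nonzero -/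
def U (v : κ → V n) : Set (V n) := {x | ∀ k, v k ≠ 0 → ip (v k) x ≠ 0}

lemma measurableSet_U (v : κ → V n) : MeasurableSet (U v) := by
  have : U v = ⋂ k, {x | v k ≠ 0 → ip (v k) x ≠ 0} := by
    ext x; simp [U]
  rw [this]
  apply MeasurableSet.iInter
  intro k
  by_cases hk : v k = 0
  · simp [hk]
  · have : {x : V n | v k ≠ 0 → ip (v k) x ≠ 0} = (ip (v k)) ⁻¹' {0}ᶜ := by
      ext x; simp [hk]
    rw [this]
    exact measurable_ip (v k) (measurableSet_singleton 0).compl

lemma ae_U (v : κ → V n) : ∀ᵐ x : V n, x ∈ U v := by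
  have : ∀ k, ∀ᵐ x : V n, v k ≠ 0 → ip (v k) x ≠ 0 := by
    intro k
    by_cases hk : v k = 0
    · exact Filter.Eventually.of_forall fun x hx => absurd hk hx
    · rw [ae_iff]
      have hne : LinearMap.ker (ipL (v k)).toLinearMap ≠ ⊤ := by
        intro h
        have h1 : v k ∈ LinearMap.ker (ipL (v k)).toLinearMap := by rw [h]; trivial
        rw [LinearMap.mem_ker] at h1
        have h2 : ip (v k) (v k) = 0 := by rw [← ipL_apply]; exact h1
        unfold ip at h2
        have h3 := (Finset.sum_eq_zero_iff_of_nonneg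
          (fun i _ => mul_self_nonneg (v k i))).1 h2
        exact hk (funext fun i => mul_self_eq_zero.1 (h3 i (Finset.mem_univ i)))
      have h1 := Measure.addHaar_submodule (volume : Measure (V n)) _ hne
      refine measure_mono_null ?_ h1
      intro x hx
      have hx' : ¬ (v k ≠ 0 → ip (v k) x ≠ 0) := hx
      push Not at hx'
      show x ∈ LinearMap.ker (ipL (v k)).toLinearMap
      rw [LinearMap.mem_ker]
      have : (ipL (v k)) x = 0 := by rw [ipL_apply]; exact hx'.2
      exact this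
  have h2 := ae_all_iff.2 this
  filter_upwards [h2] with x hx
  exact hx

/-! ### One level -/

/-- the polar set -/
def Pol (p : ℝ) (v : κ → V n) : Set (V n) :=
  {y : V n | ∀ x : V n, ∑ k, |ip (v k) x| ^ p ≤ 1 → ip x y ≤ 1}

lemma image_subset {p q : ℝ} (hp : 1 < p) (hq : q = p / (p - 1)) (v : κ → V n) {s : ℝ}
    (hs : 0 < s) :
    G p v '' ({x | Ph p v one x ≤ s} ∩ U v) ⊆ (p * s ^ (1 / q)) • Pol p v := by
  rintro _ ⟨x, hx, rfl⟩
  have hx1 : Ph p v one x ≤ s := hx.1
  have ht : 0 < p * s ^ (1 / q) := mul_pos (by linarith) (Real.rpow_pos_of_pos hs _)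
  rw [Set.mem_smul_set_iff_inv_smul_mem₀ ht.ne']
  intro z hz
  have h1 := ip_G_le hp hq v x z hz
  have hq0 : 0 < q := by rw [hq]; exact div_pos (by linarith) (by linarith)
  have h2 : Ph p v one x ^ (1 / q) ≤ s ^ (1 / q) :=
    Real.rpow_le_rpow (Ph_nonneg p v x) hx1 (by positivity)
  have h3 : ip z (G p v x) ≤ p * s ^ (1 / q) :=
    h1.trans (mul_le_mul_of_nonneg_left h2 (by linarith))
  rw [ip_smul, inv_mul_le_iff₀ ht, mul_one]
  exact h3

lemma level (hCB : S_CB) (hLA : S_LA) {p q : ℝ} (hp : 1 < p) (hq : q = p / (p - 1))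
    (v : κ → V n) (hv : Spans v) {s : ℝ} (hs : 0 < s) :
    ∫⁻ x in {x | Ph p v one x ≤ s}, ENNReal.ofReal (DD p v one x) ≤
      ENNReal.ofReal (q ^ n * s ^ ((n : ℝ) / q)) * volume (Pol p v) := by
  have hms : MeasurableSet {x | Ph p v one x ≤ s} := measurable_Ph p v measurableSet_Iic
  have hA : MeasurableSet ({x | Ph p v one x ≤ s} ∩ U v) := hms.inter (measurableSet_U v)
  have hae : ({x | Ph p v one x ≤ s} ∩ U v : Set (V n)) =ᵐ[volume] {x | Ph p v one x ≤ s} := by
    filter_upwards [ae_U v] with x hx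
    apply propext
    exact ⟨fun h => h.1, fun h => ⟨h, hx⟩⟩
  have hpn : 0 ≤ (p - 1) ^ n := pow_nonneg (by linarith) _
  rw [← setLIntegral_congr hae]
  have h1 := lintegral_abs_det_fderiv_eq_addHaar_image (volume : Measure (V n)) hA
    (f := G p v) (f' := G' p v)
    (fun x hx => (G_hasFDerivAt p v x hx.2).hasFDerivWithinAt)
    ((G_injective hLA hp v hv).injOn)
  have h2 : ∫⁻ x in ({x | Ph p v one x ≤ s} ∩ U v), ENNReal.ofReal |(G' p v x).det| =
      ENNReal.ofReal ((p - 1) ^ n) *
        ∫⁻ x in ({x | Ph p v one x ≤ s} ∩ U v), ENNReal.ofReal (DD p v one x) := by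
    rw [← lintegral_const_mul' _ _ ENNReal.ofReal_ne_top]
    refine lintegral_congr fun x => ?_
    rw [det_G' hCB, abs_of_nonneg (mul_nonneg hpn (DD_nonneg (by linarith) v x)),
      ENNReal.ofReal_mul hpn]
  have h3 : volume (G p v '' ({x | Ph p v one x ≤ s} ∩ U v)) ≤
      ENNReal.ofReal (p ^ n * s ^ ((n : ℝ) / q)) * volume (Pol p v) := by
    refine (measure_mono (image_subset hp hq v hs)).trans ?_
    rw [Measure.addHaar_smul]
    refine le_of_eq ?_
    congr 2
    have hfin : Module.finrank ℝ (V n) = n := Module.finrank_fin_fun ℝ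
    have h0 : 0 ≤ p * s ^ (1 / q) := mul_nonneg (by linarith) (Real.rpow_nonneg hs.le _)
    rw [hfin, abs_of_nonneg (pow_nonneg h0 n), mul_pow]
    congr 1
    rw [← Real.rpow_natCast, ← Real.rpow_mul hs.le]
    congr 1
    ring
  rw [← h1, h2] at h3
  have hp1 : 0 < (p - 1) ^ n := pow_pos (by linarith) _
  have h4 : ENNReal.ofReal (q ^ n * s ^ ((n : ℝ) / q)) =
      ENNReal.ofReal (p ^ n * s ^ ((n : ℝ) / q)) / ENNReal.ofReal ((p - 1) ^ n) := by
    rw [← ENNReal.ofReal_div_of_pos hp1]
    congr 1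
    rw [hq, div_pow]
    ring
  rw [h4]
  have h5 : ENNReal.ofReal ((p - 1) ^ n) ≠ 0 := by
    rw [Ne, ENNReal.ofReal_eq_zero, not_le]; exact hp1
  set X := ∫⁻ x in ({x | Ph p v one x ≤ s} ∩ U v), ENNReal.ofReal (DD p v one x)
  set c := ENNReal.ofReal ((p - 1) ^ n)
  have hc : c ≠ ⊤ := ENNReal.ofReal_ne_top
  calc X = c⁻¹ * (c * X) := by rw [← mul_assoc, ENNReal.inv_mul_cancel h5 hc, one_mul]
    _ ≤ c⁻¹ * (ENNReal.ofReal (p ^ n * s ^ ((n : ℝ) / q)) * volume (Pol p v)) := by gcongr
    _ = _ := by rw [ENNReal.div_eq_inv_mul, mul_assoc]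

/-! ### Integration over the levels -/

lemma exp_le (a : ℝ) (ha : 0 ≤ a) : ENNReal.ofReal (Real.exp (-a)) ≤
    ∫⁻ r in Ioi (0 : ℝ), (if a ≤ r then 1 else 0) * ENNReal.ofReal (Real.exp (-r)) := by
  have h1 : ENNReal.ofReal (Real.exp (-a)) = ∫⁻ r in Ioi a, ENNReal.ofReal (Real.exp (-r)) := by
    rw [← integral_exp_neg_Ioi a]
    exact ofReal_integral_eq_lintegral_ofReal (integrableOn_exp_neg_Ioi a)
      (Filter.Eventually.of_forall fun r => (Real.exp_pos _).le)
  rw [h1]
  have h2 : ∫⁻ r in Ioi a, ENNReal.ofReal (Real.exp (-r)) =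
      ∫⁻ r in Ioi a, (if a ≤ r then 1 else 0) * ENNReal.ofReal (Real.exp (-r)) := by
    refine setLIntegral_congr_fun measurableSet_Ioi fun r hr => ?_
    have : a ≤ r := le_of_lt hr
    simp [this]
  rw [h2]
  exact lintegral_mono_set (Ioi_subset_Ioi ha)

lemma gamma_int (n : ℕ) {q : ℝ} (hq : 0 < q) (V : ℝ≥0∞) :
    ∫⁻ r in Ioi (0 : ℝ), ENNReal.ofReal (Real.exp (-r)) *
        (ENNReal.ofReal (q ^ n * r ^ ((n : ℝ) / q)) * V)
      = ENNReal.ofReal (q ^ n * Real.Gamma ((n : ℝ) / q + 1)) * V := by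
  have hs : 0 < (n : ℝ) / q + 1 := by positivity
  have hqn : 0 ≤ q ^ n := pow_nonneg hq.le n
  have h1 : ∀ r ∈ Ioi (0 : ℝ), ENNReal.ofReal (Real.exp (-r)) *
      (ENNReal.ofReal (q ^ n * r ^ ((n : ℝ) / q)) * V) =
      ENNReal.ofReal (Real.exp (-r) * r ^ ((n : ℝ) / q + 1 - 1)) *
        (ENNReal.ofReal (q ^ n) * V) := by
    intro r _
    rw [ENNReal.ofReal_mul (Real.exp_pos _).le, ENNReal.ofReal_mul hqn,
      add_sub_cancel_right]
    ring
  rw [setLIntegral_congr_fun measurableSet_Ioi h1, lintegral_mul_const _ (by fun_prop),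
    ← ofReal_integral_eq_lintegral_ofReal (Real.GammaIntegral_convergent hs), ←
    Real.Gamma_eq_integral hs, ENNReal.ofReal_mul hqn]
  · ring
  · refine (ae_restrict_iff' measurableSet_Ioi).2 (Filter.Eventually.of_forall fun r hr => ?_)
    exact mul_nonneg (Real.exp_pos _).le (Real.rpow_nonneg (le_of_lt hr) _)

lemma main_le (hCB : S_CB) (hLA : S_LA) {p q : ℝ} (hp : 1 < p) (hq : q = p / (p - 1))
    (v : κ → V n) (hv : Spans v) :
    ∫⁻ x : V n, ENNReal.ofReal (Real.exp (-(Ph p v one x)) * DD p v one x) ≤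
      ENNReal.ofReal (q ^ n * Real.Gamma ((n : ℝ) / q + 1)) * volume (Pol p v) := by
  have hq0 : 0 < q := by rw [hq]; exact div_pos (by linarith) (by linarith)
  have hPh := measurable_Ph p v
  have hDD := measurable_DD p v
  calc ∫⁻ x : V n, ENNReal.ofReal (Real.exp (-(Ph p v one x)) * DD p v one x)
      ≤ ∫⁻ x : V n, ∫⁻ r in Ioi (0 : ℝ), ((if Ph p v one x ≤ r then 1 else 0) *
          ENNReal.ofReal (Real.exp (-r))) * ENNReal.ofReal (DD p v one x) := by
        refine lintegral_mono fun x => ?_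
        rw [ENNReal.ofReal_mul (Real.exp_pos _).le,
          lintegral_mul_const' _ _ ENNReal.ofReal_ne_top]
        gcongr
        exact exp_le _ (Ph_nonneg p v x)
    _ = ∫⁻ r in Ioi (0 : ℝ), ∫⁻ x : V n, ((if Ph p v one x ≤ r then 1 else 0) *
          ENNReal.ofReal (Real.exp (-r))) * ENNReal.ofReal (DD p v one x) := by
        refine lintegral_lintegral_swap (Measurable.aemeasurable ?_)
        unfold Function.uncurry
        refine Measurable.mul (Measurable.mul (Measurable.ite ?_ measurable_const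
          measurable_const) ?_) ?_
        · exact measurableSet_le (hPh.comp measurable_fst) measurable_snd
        · fun_prop
        · exact (hDD.comp measurable_fst).ennreal_ofReal
    _ ≤ ∫⁻ r in Ioi (0 : ℝ), ENNReal.ofReal (Real.exp (-r)) *
          (ENNReal.ofReal (q ^ n * r ^ ((n : ℝ) / q)) * volume (Pol p v)) := by
        refine setLIntegral_mono' measurableSet_Ioi fun r hr => ?_
        have h1 := level hCB hLA hp hq v hv hr
        have hms : MeasurableSet {x | Ph p v one x ≤ r} := measurable_Ph p v measurableSet_Iic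
        rw [← lintegral_indicator hms] at h1
        have h2 : ∫⁻ x : V n, ((if Ph p v one x ≤ r then 1 else 0) *
            ENNReal.ofReal (Real.exp (-r))) * ENNReal.ofReal (DD p v one x) =
            ENNReal.ofReal (Real.exp (-r)) * ∫⁻ x : V n,
              ({x | Ph p v one x ≤ r} : Set (V n)).indicator
                (fun x => ENNReal.ofReal (DD p v one x)) x := by
          rw [← lintegral_const_mul' _ _ ENNReal.ofReal_ne_top]
          refine lintegral_congr fun x => ?_
          by_cases hx : Ph p v one x ≤ r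
          · have hx' : x ∈ ({x | Ph p v one x ≤ r} : Set (V n)) := hx
            rw [if_pos hx, Set.indicator_of_mem hx', one_mul]
          · have hx' : x ∉ ({x | Ph p v one x ≤ r} : Set (V n)) := hx
            rw [if_neg hx, Set.indicator_of_notMem hx']
            simp
        rw [h2]
        gcongr
    _ = _ := gamma_int n hq0 _

/-- The lower bound of the volume of the polar set. -/
theorem VP0 (hCB : S_CB) (hLA : S_LA) : S_VP := by
  intro n κ _ p q hp _ hq v hv
  have hq0 : 0 < q := by rw [hq]; exact div_pos (by linarith) (by linarith)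
  have hG : 0 < q ^ n * Real.Gamma ((n : ℝ) / q + 1) := by
    have : 0 < Real.Gamma ((n : ℝ) / q + 1) := Real.Gamma_pos_of_pos (by positivity)
    positivity
  have h1 := main_le hCB hLA hp hq v hv
  have h2 : ENNReal.ofReal (AA p v one) ≤
      ∫⁻ x : V n, ENNReal.ofReal (Real.exp (-(Ph p v one x)) * DD p v one x) := by
    by_cases hi : Integrable (fun x : V n => Real.exp (-(Ph p v one x)) * DD p v one x)
    · unfold AA
      rw [ofReal_integral_eq_lintegral_ofReal hi]
      exact Filter.Eventually.of_forall fun x =>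
        mul_nonneg (Real.exp_pos _).le (DD_nonneg (by linarith) v x)
    · unfold AA
      rw [integral_undef hi]
      simp
  rw [ENNReal.ofReal_div_of_pos hG]
  refine ENNReal.div_le_of_le_mul ?_
  rw [mul_comm]
  exact h2.trans h1

theorem VP (_h1 : S_IA) (h2 : S_CB) (h3 : S_LA) (_h4 : S_AD) : S_VP := VP0 h2 h3

end H661NLVP
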